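import Pool.Agent.Work.MP_91aed7_am.Interface

/-!
# MP_91aed7_ag: block EXT (extensions of automorphisms)
-/

set_option autoImplicit false

open MvPolynomial

namespace Pool.AM.EXT_

variable {k : Type} [Field k] {n : ℕ}

/-- the extension of an endomorphism by the identity in the variables `y` -/
noncomputable def ex (φ : MvPolynomial (Fin n) k →ₐ[k] MvPolynomial (Fin n) k) :
    PS k n →ₐ[k] PS k n :=
  aeval (Sum.elim (fun i => rename Sum.inl (φ (X i))) (fun j => X (Sum.inr j)))

theorem ex_inl (φ : MvPolynomial (Fin n) k →ₐ[k] MvPolynomial (Fin n) k) (i : Fin n) :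
    ex φ (X (Sum.inl i)) = rename Sum.inl (φ (X i)) := by
  simp [ex]

theorem ex_inr (φ : MvPolynomial (Fin n) k →ₐ[k] MvPolynomial (Fin n) k) (j : ℕ) :
    ex φ (X (Sum.inr j)) = X (Sum.inr j) := by
  simp [ex]

theorem ex_rename (φ : MvPolynomial (Fin n) k →ₐ[k] MvPolynomial (Fin n) k)
    (f : MvPolynomial (Fin n) k) :
    ex φ (rename Sum.inl f) = rename Sum.inl (φ f) := by
  have h : (ex φ).comp (rename Sum.inl) = (rename (Sum.inl : Fin n → Vr n)).comp φ := by
    apply MvPolynomial.algHom_ext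
    intro i
    simp only [AlgHom.comp_apply, rename_X]
    exact ex_inl φ i
  exact congrArg (fun g => g f) h

theorem ex_comp {φ ψ : MvPolynomial (Fin n) k →ₐ[k] MvPolynomial (Fin n) k}
    (h : φ.comp ψ = AlgHom.id k _) : (ex φ).comp (ex ψ) = AlgHom.id k _ := by
  apply MvPolynomial.algHom_ext
  rintro (i | j)
  · have h' : φ (ψ (X i)) = X i := congrArg (fun g => g (X i)) h
    rw [AlgHom.comp_apply, ex_inl, ex_rename, h', rename_X]
    rfl
  · rw [AlgHom.comp_apply, ex_inr, ex_inr]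
    simp

/-- the extension of an automorphism -/
noncomputable def ee (φ : MvPolynomial (Fin n) k ≃ₐ[k] MvPolynomial (Fin n) k) :
    PS k n ≃ₐ[k] PS k n :=
  AlgEquiv.ofAlgHom (ex (φ : MvPolynomial (Fin n) k →ₐ[k] MvPolynomial (Fin n) k))
    (ex (φ.symm : MvPolynomial (Fin n) k →ₐ[k] MvPolynomial (Fin n) k))
    (ex_comp (by ext i; simp)) (ex_comp (by ext i; simp))

theorem ee_symm (φ : MvPolynomial (Fin n) k ≃ₐ[k] MvPolynomial (Fin n) k) (f : PS k n) :
    (ee φ).symm f = ex (φ.symm : MvPolynomial (Fin n) k →ₐ[k] MvPolynomial (Fin n) k) f := rfl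

theorem ee_apply (φ : MvPolynomial (Fin n) k ≃ₐ[k] MvPolynomial (Fin n) k) (f : PS k n) :
    ee φ f = ex (φ : MvPolynomial (Fin n) k →ₐ[k] MvPolynomial (Fin n) k) f := rfl

theorem rename_mem (f : MvPolynomial (Fin n) k) :
    rename Sum.inl f ∈ supported k (low n 0) := by
  classical
  rw [mem_supported]
  intro v hv
  have h := vars_rename (Sum.inl : Fin n → Vr n) f hv
  rw [Finset.mem_image] at h
  obtain ⟨i, -, rfl⟩ := h
  intro j hj
  exact absurd hj (by simp)

end Pool.AM.EXT_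

open Pool.AM.EXT_ in
theorem Pool.AM.stmt_EXT : Pool.AM.Stmt_EXT := by
  intro k _ n φ
  refine ⟨ee φ, ⟨fun i => ?_, fun j => ?_⟩, ⟨fun i => ?_, fun j => ?_⟩, ?_, ?_⟩
  · exact ex_inl _ i
  · exact ex_inr _ j
  · exact ex_inl _ i
  · exact ex_inr _ j
  · rintro (i | j) hv
    · refine ⟨?_, ?_⟩
      · rw [ee_apply, ex_inl]
        exact rename_mem _
      · rw [ee_symm, ex_inl]
        exact rename_mem _
    · exact absurd (hv j rfl) (Nat.not_lt_zero j)
  · rintro (i | j) hv
    · exact absurd (fun j hj => absurd hj (by simp)) hv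
    · exact ex_inr _ j
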