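import Pool.Agent.Work.MP_91aed7_am.Interface

/-!
# MP_91aed7_ag: block NIL (1 + X N is stably elementary for N nilpotent)
-/

set_option autoImplicit false

namespace Pool.AM.NIL_

theorem toMatrix_reindex {R : Type} [CommRing R] {ι : Type} [Fintype ι] [DecidableEq ι] {n : ℕ}
    (e : ι ≃ Fin n) (N : Matrix ι ι R) :
    LinearMap.toMatrix' ((LinearMap.funLeft R R e.symm) ∘ₗ (Matrix.toLin' N) ∘ₗ
      (LinearMap.funLeft R R e)) = Matrix.reindex e e N := by
  ext a b
  rw [LinearMap.toMatrix'_apply]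
  simp only [LinearMap.comp_apply, LinearMap.funLeft_apply, Matrix.toLin'_apply,
    Matrix.reindex_apply, Matrix.submatrix_apply]
  have h : (LinearMap.funLeft R R e) (Pi.single b (1 : R)) = Pi.single (e.symm b) (1 : R) := by
    funext i
    rw [LinearMap.funLeft_apply, Pi.single_apply, Pi.single_apply]
    by_cases hi : i = e.symm b
    · rw [if_pos hi, if_pos (by rw [hi, Equiv.apply_symm_apply])]
    · rw [if_neg hi, if_neg (fun h => hi (by rw [← h, Equiv.symm_apply_apply]))]
  rw [h, Matrix.mulVec_single_one]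
  rfl

theorem Mt_reindex {R : Type} [CommRing R] {ι κ : Type} [Fintype ι] [DecidableEq ι] [Fintype κ]
    [DecidableEq κ] (e : ι ≃ κ) (N : Matrix ι ι R) :
    Matrix.reindex e.symm e.symm (Mt (Matrix.reindex e e N)) = Mt N := by
  ext a b
  simp only [Matrix.reindex_apply, Matrix.submatrix_apply, Mt, Matrix.add_apply,
    Matrix.smul_apply, Matrix.map_apply, Matrix.one_apply, Equiv.symm_symm,
    Equiv.symm_apply_apply, EmbeddingLike.apply_eq_iff_eq]

end Pool.AM.NIL_

open Pool.AM.NIL_ in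
theorem Pool.AM.stmt_NIL (hSE : Pool.AM.Stmt_SE) (hTL : Pool.AM.Stmt_TL)
    (hDEV : Pool.AM.Stmt_DEV) (hPDR : Pool.AM.Stmt_PDR) : Pool.AM.Stmt_NIL := by
  intro k _ m ι _ _ N hN
  have hT : T (MvPolynomial (Fin m) k) (ι → MvPolynomial (Fin m) k) (Matrix.toLin' N) :=
    hDEV (MvPolynomial (Fin m) k) (fun W _ _ h => hPDR k m W h)
      (fun P _ _ ν => T (MvPolynomial (Fin m) k) P ν)
      (fun P _ _ ν h => (hTL _).proj h)
      (fun P _ _ hf hp => (hTL _).zero P hf hp)
      (fun P' P P'' _ _ _ _ _ _ ν' ν ν'' j q hex =>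
        ⟨fun h1 h2 => (hTL _).ext hex h1 h2, fun h1 h2 => (hTL _).ker hex h1 h2,
          fun h1 h2 h3 => (hTL _).coker hex h1 h2 h3⟩)
      (ι → MvPolynomial (Fin m) k) (Matrix.toLin' N) inferInstance inferInstance
      (hN.map (Matrix.toLinAlgEquiv' (R := MvPolynomial (Fin m) k) (n := ι)))
  have h := (hTL _).all hT (Fintype.card ι)
    (LinearMap.funLeft (MvPolynomial (Fin m) k) (MvPolynomial (Fin m) k)
      (Fintype.equivFin ι).symm)
    (LinearMap.funLeft (MvPolynomial (Fin m) k) (MvPolynomial (Fin m) k) (Fintype.equivFin ι))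
    (by
      apply LinearMap.ext
      intro f
      funext i
      simp only [LinearMap.comp_apply, LinearMap.funLeft_apply, LinearMap.id_apply,
        Equiv.symm_apply_apply])
  rw [toMatrix_reindex] at h
  have h2 := hSE.reindex (Fintype.equivFin ι).symm h
  rwa [Mt_reindex] at h2
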